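import Pool.Agent.Helper10_BAN.Stmt

set_option autoImplicit false

/-! HOLP: holomorphic parameter integrals. -/

namespace Pool.Agent.BAN.H12

open MeasureTheory Filter Topology Set
open scoped NNReal

theorem holp : HOLPStmt := by
  intro α _ μ U F h hU hmeas hint hbd hdiff z0 hz0
  obtain ⟨ρ0, hρ0, hball⟩ := Metric.isOpen_iff.1 hU z0 hz0
  set ρ : ℝ := ρ0 / 3 with hρ
  have hρpos : 0 < ρ := by positivity
  have hsub : ∀ z ∈ Metric.ball z0 ρ, Metric.closedBall z ρ ⊆ U := by
    intro z hz w hw
    apply hball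
    rw [Metric.mem_ball] at hz ⊢
    rw [Metric.mem_closedBall] at hw
    have := dist_triangle w z z0
    linarith
  have hz0U : ∀ z ∈ Metric.ball z0 ρ, z ∈ U := fun z hz =>
    hsub z hz (Metric.mem_closedBall_self hρpos.le)
  -- measurability of the derivative
  have hF' : AEStronglyMeasurable (fun x => deriv (fun z => F z x) z0) μ := by
    have hseq : ∀ n : ℕ, (ρ / (n + 2) : ℝ) ≠ 0 := fun n => by positivity
    have hlt : ∀ n : ℕ, (ρ / (n + 2) : ℝ) < ρ := by
      intro n
      rw [div_lt_iff₀ (by positivity)]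
      nlinarith [hρpos, (Nat.cast_nonneg n : (0:ℝ) ≤ n)]
    have hmem : ∀ n : ℕ, z0 + ((ρ / (n + 2) : ℝ) : ℂ) ∈ Metric.ball z0 ρ := by
      intro n
      rw [Metric.mem_ball, dist_eq_norm, add_sub_cancel_left, Complex.norm_real,
        Real.norm_of_nonneg (by positivity)]
      exact hlt n
    refine aestronglyMeasurable_of_tendsto_ae (u := atTop)
      (f := fun (n : ℕ) x => (((ρ / (n + 2) : ℝ) : ℂ))⁻¹ •
        (F (z0 + ((ρ / (n + 2) : ℝ) : ℂ)) x - F z0 x)) ?_ ?_
    · intro n
      exact AEStronglyMeasurable.const_smul ((hmeas _ (hz0U _ (hmem n))).sub (hmeas _ hz0))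
        (((ρ / (n + 2) : ℝ) : ℂ))⁻¹
    · filter_upwards [hdiff] with x hx
      have hd : HasDerivAt (fun z => F z x) (deriv (fun z => F z x) z0) z0 :=
        (hx.differentiableAt (hU.mem_nhds hz0)).hasDerivAt
      have h1 := hd.tendsto_slope_zero
      have h2 : Tendsto (fun n : ℕ => ((ρ / (n + 2) : ℝ) : ℂ)) atTop (𝓝[≠] 0) := by
        rw [tendsto_nhdsWithin_iff]
        refine ⟨?_, Eventually.of_forall fun n => ?_⟩
        · have h3 : Tendsto (fun n : ℕ => (ρ / ((n : ℝ) + 2) : ℝ)) atTop (𝓝 0) :=
            tendsto_const_nhds.div_atTop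
              (tendsto_atTop_add_const_right _ _ tendsto_natCast_atTop_atTop)
          have h4 := (Complex.continuous_ofReal.tendsto 0).comp h3
          rw [Complex.ofReal_zero] at h4
          exact h4
        · simp only [mem_compl_iff, mem_singleton_iff, Complex.ofReal_eq_zero]
          exact hseq n
      exact h1.comp h2
  have key := hasDerivAt_integral_of_dominated_loc_of_deriv_le (μ := μ) (𝕜 := ℂ)
    (F := F) (x₀ := z0) (s := Metric.ball z0 ρ) (bound := fun x => h x / ρ)
    (F' := fun z x => deriv (fun w => F w x) z) (Metric.ball_mem_nhds z0 hρpos)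
    (by
      filter_upwards [hU.mem_nhds hz0] with z hz
      exact hmeas z hz)
    (by
      refine hint.mono' (hmeas z0 hz0) ?_
      filter_upwards [hbd] with x hx
      exact hx z0 hz0)
    hF'
    (by
      filter_upwards [hbd, hdiff] with x hx hdx z hz
      refine Complex.norm_deriv_le_of_forall_mem_sphere_norm_le hρpos ?_ ?_
      · refine DifferentiableOn.diffContOnCl ?_
        rw [closure_ball z hρpos.ne']
        exact hdx.mono (hsub z hz)
      · intro w hw
        exact hx w (hsub z hz (Metric.sphere_subset_closedBall hw)))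
    (hint.div_const ρ)
    (by
      filter_upwards [hdiff] with x hx z hz
      exact (hx.differentiableAt (hU.mem_nhds (hz0U z hz))).hasDerivAt)
  exact key.2.differentiableAt.differentiableWithinAt

end Pool.Agent.BAN.H12
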