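import Mathlib

set_option autoImplicit false

/-! Abstract Lipschitz sections from a Lipschitz transport. -/

namespace Pool.Agent.BAN.H12

/-- Abstract construction of Lipschitz sections over a bounded star-shaped set. -/
theorem secAbs {X W Y : Type*} [NormedAddCommGroup X] [NormedAddCommGroup W]
    [NormedAddCommGroup Y] [NormedSpace ℝ Y] (P : X → Set W) (ρ L : ℝ) (T : X → W → W)
    (hρ : 0 < ρ) (hL : 0 ≤ L)
    (hT1 : ∀ ν ν' : X, ‖ν‖ = 1 → ‖ν'‖ = 1 → ‖ν - ν'‖ ≤ ρ → ∀ A ∈ P ν, T ν' A ∈ P ν')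
    (hT2 : ∀ ν₁ ν₁' ν₂ ν₂' : X, ‖ν₁‖ = 1 → ‖ν₁'‖ = 1 → ‖ν₂‖ = 1 → ‖ν₂'‖ = 1 →
        ‖ν₁ - ν₁'‖ ≤ ρ → ‖ν₂ - ν₂'‖ ≤ ρ → ∀ A₁ ∈ P ν₁, ∀ A₂ ∈ P ν₂,
          ‖T ν₁' A₁ - T ν₂' A₂‖ ≤ L * (‖ν₁' - ν₂'‖ + ‖A₁ - A₂‖))
    (hne : ∀ ν : X, ‖ν‖ = 1 → ∃ A, A ∈ P ν)
    (D : Set Y) (R l : ℝ) (ν : Y → X)
    (hstar : ∀ y ∈ D, ∀ t : ℝ, 0 ≤ t → t ≤ 1 → t • y ∈ D) (hbd : ∀ y ∈ D, ‖y‖ ≤ R)
    (hν : ∀ y ∈ D, ‖ν y‖ = 1) (hlip : ∀ y ∈ D, ∀ z ∈ D, ‖ν y - ν z‖ ≤ l * ‖y - z‖) :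
    ∃ (s : Y → W) (L' : ℝ), 0 ≤ L' ∧ (∀ y ∈ D, s y ∈ P (ν y)) ∧
        (∀ y ∈ D, ∀ z ∈ D, ‖s y - s z‖ ≤ L' * ‖y - z‖) := by
  classical
  rcases D.eq_empty_or_nonempty with hD | ⟨y0, hy0⟩
  · subst hD
    exact ⟨fun _ => 0, 0, le_rfl, by simp, by simp⟩
  have h0D : (0 : Y) ∈ D := by simpa using hstar y0 hy0 0 le_rfl zero_le_one
  obtain ⟨A0, hA0⟩ := hne (ν 0) (hν 0 h0D)
  have hR : 0 ≤ R := (norm_nonneg y0).trans (hbd y0 hy0)
  obtain ⟨m, hm⟩ := exists_nat_gt (|l| * R / ρ)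
  have hlR : 0 ≤ |l| * R / ρ := by positivity
  have hmpos : (0 : ℝ) < m := lt_of_le_of_lt hlR hm
  have hstep : |l| * (R / m) ≤ ρ := by
    rw [← mul_div_assoc, div_le_iff₀ hmpos]
    rw [div_lt_iff₀ hρ] at hm
    linarith
  have key : ∀ j : ℕ, j ≤ m → ∃ (s : Y → W) (L' : ℝ), 0 ≤ L' ∧
      (∀ y ∈ D, s y ∈ P (ν (((j : ℝ) / m) • y))) ∧
      (∀ y ∈ D, ∀ z ∈ D, ‖s y - s z‖ ≤ L' * ‖y - z‖) := by
    intro j
    induction j with
    | zero =>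
      intro _
      refine ⟨fun _ => A0, 0, le_rfl, ?_, ?_⟩
      · intro y _
        simpa using hA0
      · intro y _ z _
        simp
    | succ j ih =>
      intro hj
      obtain ⟨s, L', hL', hs1, hs2⟩ := ih (by omega)
      have hjm : ((j + 1 : ℕ) : ℝ) / m ≤ 1 := by
        rw [div_le_one hmpos]
        exact_mod_cast hj
      have hjm' : ((j : ℕ) : ℝ) / m ≤ 1 := by
        rw [div_le_one hmpos]
        exact_mod_cast (by omega : j ≤ m)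
      have h0 : (0 : ℝ) ≤ ((j + 1 : ℕ) : ℝ) / m := by positivity
      have h0' : (0 : ℝ) ≤ (j : ℝ) / m := by positivity
      have hd : ∀ y ∈ D, ‖ν (((j : ℝ) / m) • y) - ν ((((j + 1 : ℕ) : ℝ) / m) • y)‖ ≤ ρ := by
        intro y hy
        refine (hlip _ (hstar y hy _ h0' hjm') _ (hstar y hy _ h0 hjm)).trans ?_
        rw [← sub_smul, norm_smul]
        have h1 : ((j : ℝ) / m - ((j + 1 : ℕ) : ℝ) / m) = -(1 / m) := by
          push_cast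
          field_simp
          ring
        rw [h1, norm_neg, Real.norm_of_nonneg (by positivity)]
        calc l * (1 / m * ‖y‖) ≤ |l| * (1 / m * R) := by
              refine mul_le_mul (le_abs_self l) ?_ (by positivity) (abs_nonneg l)
              exact mul_le_mul_of_nonneg_left (hbd y hy) (by positivity)
          _ = |l| * (R / m) := by ring
          _ ≤ ρ := hstep
      refine ⟨fun y => T (ν ((((j + 1 : ℕ) : ℝ) / m) • y)) (s y), L * (|l| + L'),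
        by positivity, ?_, ?_⟩
      · intro y hy
        exact hT1 _ _ (hν _ (hstar y hy _ h0' hjm')) (hν _ (hstar y hy _ h0 hjm)) (hd y hy) _
          (hs1 y hy)
      · intro y hy z hz
        refine (hT2 _ _ _ _ (hν _ (hstar y hy _ h0' hjm')) (hν _ (hstar y hy _ h0 hjm))
          (hν _ (hstar z hz _ h0' hjm')) (hν _ (hstar z hz _ h0 hjm)) (hd y hy) (hd z hz) _
          (hs1 y hy) _ (hs1 z hz)).trans ?_
        have h2 : ‖ν ((((j + 1 : ℕ) : ℝ) / m) • y) - ν ((((j + 1 : ℕ) : ℝ) / m) • z)‖ ≤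
            |l| * ‖y - z‖ := by
          refine (hlip _ (hstar y hy _ h0 hjm) _ (hstar z hz _ h0 hjm)).trans ?_
          rw [← smul_sub, norm_smul, Real.norm_of_nonneg h0]
          refine mul_le_mul (le_abs_self l) ?_ (by positivity) (abs_nonneg l)
          exact mul_le_of_le_one_left (norm_nonneg _) hjm
        calc L * (‖ν ((((j + 1 : ℕ) : ℝ) / m) • y) - ν ((((j + 1 : ℕ) : ℝ) / m) • z)‖ +
              ‖s y - s z‖) ≤ L * (|l| * ‖y - z‖ + L' * ‖y - z‖) :=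
              mul_le_mul_of_nonneg_left (add_le_add h2 (hs2 y hy z hz)) hL
          _ = L * (|l| + L') * ‖y - z‖ := by ring
  obtain ⟨s, L', hL', hs1, hs2⟩ := key m le_rfl
  refine ⟨s, L', hL', ?_, hs2⟩
  intro y hy
  have := hs1 y hy
  rwa [div_self hmpos.ne', one_smul] at this

end Pool.Agent.BAN.H12
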