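import Pool.Agent.Helper10_BAN.Stmt
import Pool.Agent.Helper12_BAN.SecAbs

set_option autoImplicit false

/-! SEC: Lipschitz sections over bounded star-shaped sets (seminorm version). -/

namespace Pool.Agent.BAN.H12

theorem sec (hTR : TRStmt) : SECStmt := by
  intro 𝕜 _ V X _ _ _ _ _ _ φ Φ hdat Y _ _ D R l ν hstar hbd hν hlip
  obtain ⟨ρ, L, T, hρ, hL, h1, h2⟩ := hTR 𝕜 V X φ Φ hdat
  exact secAbs (P := fun ν => PP φ Φ ν) ρ L T hρ hL h1 h2 hdat.non D R l ν hstar hbd hν hlip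

end Pool.Agent.BAN.H12
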